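import Pool.Agent.J4.H89.BK.HullTf

set_option autoImplicit false
open MeasureTheory ProbabilityTheory Filter
open scoped Pointwise

/-!
Q1 of MP_de94ef_pr (planar first-passage percolation with Exp(1) weights) holds if and only if, along
a sparse sequence of times, the convex hull of the points with mean passage time at most `t` contains
`(1 - t ^ (-κ)) t` times the limit shape for every `κ < 2 / 3`. It is enough to have lattice points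
with small mean near `t x` for `x` in the directions of curvature of the limit shape; it is enough
to have the inner half of Q1 in a weak form along a sparse sequence of times (helper89).
-/

namespace Pool.Agent.Results.MP_de94ef_pr.ConvexHullCriterion

/-- the fattened cluster at time `t`, for the passage times `T` from the origin -/
def Cluster (T : ℤ × ℤ → ℝ) (t : ℝ) : Set (ℝ × ℝ) :=
  {x : ℝ × ℝ | ∃ v : ℤ × ℤ, T v ≤ t ∧ |x.1 - (v.1 : ℝ)| ≤ 1 / 2 ∧ |x.2 - (v.2 : ℝ)| ≤ 1 / 2}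

/-- the inner event: a part of `(1 - t ^ (-κ)) t` times the limit shape is missed by the fattened
cluster at time `t` -/
def Missed {Ω : Type} (T : Ω → ℤ × ℤ → ℝ) (μ : ℝ × ℝ → ℝ) (κ t : ℝ) : Set Ω :=
  {ω | ¬ (((1 - t ^ (-κ)) * t) • {x : ℝ × ℝ | μ x ≤ 1} ⊆ Cluster (T ω) t)}

/-- the outer event: the fattened cluster at time `t` is not contained in `(1 + t ^ (-κ)) t` times
the limit shape -/
def Outside {Ω : Type} (T : Ω → ℤ × ℤ → ℝ) (μ : ℝ × ℝ → ℝ) (κ t : ℝ) : Set Ω :=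
  {ω | ¬ (Cluster (T ω) t ⊆ ((1 + t ^ (-κ)) * t) • {x : ℝ × ℝ | μ x ≤ 1})}

/-- the lattice point `v` as a point of the plane -/
def pt (v : ℤ × ℤ) : ℝ × ℝ := ((v.1 : ℝ), (v.2 : ℝ))

/-- the directions of curvature: points of the boundary of the limit shape on a circle that encloses
the limit shape -/
def Curv (μ : ℝ × ℝ → ℝ) : Set (ℝ × ℝ) :=
  {x | μ x = 1 ∧ ∃ c : ℝ × ℝ, ∀ y : ℝ × ℝ, μ y ≤ 1 →
    (y.1 - c.1) ^ 2 + (y.2 - c.2) ^ 2 ≤ (x.1 - c.1) ^ 2 + (x.2 - c.2) ^ 2}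

/-- `S` meets all the intervals `[s ^ (1 - δ), s]` with large `s`, for every `δ > 0` -/
def LogDense (S : Set ℝ) : Prop :=
  ∀ δ : ℝ, 0 < δ → ∀ᶠ s : ℝ in atTop, ∃ t ∈ S, s ^ (1 - δ) ≤ t ∧ t ≤ s

theorem result :
  ∀ (Ω : Type) [MeasureSpace Ω] [IsProbabilityMeasure (volume : Measure Ω)]
    (X : Sym2 (ℤ × ℤ) → Ω → ℝ) (T : Ω → ℤ × ℤ → ℝ) (μ : ℝ × ℝ → ℝ),
    (∀ e, Measurable (X e)) →
    iIndepFun X (volume : Measure Ω) →
    (∀ e, Measure.map (X e) (volume : Measure Ω) = expMeasure 1) →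
    (∀ ω v, T ω v = sInf {s : ℝ | ∃ n : ℕ, ∃ p : ℕ → ℤ × ℤ, p 0 = 0 ∧ p n = v ∧
        (∀ i < n, |(p (i + 1)).1 - (p i).1| + |(p (i + 1)).2 - (p i).2| = 1) ∧
        s = ∑ i ∈ Finset.range n, X s(p i, p (i + 1)) ω}) →
    (∀ (x : ℝ × ℝ) (c : ℝ), 0 ≤ c → μ (c • x) = c * μ x) →
    Continuous μ →
    (∀ z : ℤ × ℤ, ∀ᵐ ω ∂(volume : Measure Ω),
        Tendsto (fun n : ℕ => T ω ((n : ℤ) • z) / (n : ℝ)) atTop
          (nhds (μ ((z.1 : ℝ), (z.2 : ℝ))))) →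
    -- (1) one exponent, one gap
    (∀ κ κ' δ A : ℝ, 0 < κ → κ < 1 → 0 ≤ δ → 0 ≤ A → 0 < κ' → κ' < κ * (1 - δ) →
      (∀ᶠ s : ℝ in atTop, ∃ t : ℝ, s ^ (1 - δ) ≤ t ∧ t ≤ s ∧
        ∀ x : ℝ × ℝ, μ x ≤ t - A * t ^ (1 - κ) → x ∈ convexHull ℝ (pt '' {v : ℤ × ℤ |
          ∫ ω, T ω v ∂(volume : Measure Ω) ≤ t + A * t ^ (1 - κ)})) →
      ∃ c : ℝ, 0 < c ∧ ∀ᶠ t : ℝ in atTop,
        (volume : Measure Ω).real (Outside T μ κ' t) ≤ Real.exp (-(t ^ c)) ∧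
        (volume : Measure Ω).real (Missed T μ κ' t) ≤ Real.exp (-(t ^ c))) ∧
    -- (2) all exponents below `K`, a log-dense set of times `S`, and a set of directions `E` with
    -- closed convex hull the limit shape; for `K = 2 / 3` the first item is Q1
    (∀ K : ℝ, K < 1 → ∀ S : Set ℝ, LogDense S → ∀ E : Set (ℝ × ℝ), (∀ x ∈ E, μ x ≤ 1) →
      {x | μ x ≤ 1} ⊆ closure (convexHull ℝ E) → List.TFAE [
      ∀ κ : ℝ, 0 < κ → κ < K → ∀ q : ℝ, 0 < q →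
        Asymptotics.IsBigO atTop (fun t : ℝ => (volume : Measure Ω).real (Outside T μ κ t))
          (fun t : ℝ => t ^ (-q)) ∧
        Asymptotics.IsBigO atTop (fun t : ℝ => (volume : Measure Ω).real (Missed T μ κ t))
          (fun t : ℝ => t ^ (-q)),
      ∀ κ : ℝ, 0 < κ → κ < K → ∃ c : ℝ, 0 < c ∧ ∀ᶠ t : ℝ in atTop,
        (volume : Measure Ω).real (Outside T μ κ t) ≤ Real.exp (-(t ^ c)) ∧
        (volume : Measure Ω).real (Missed T μ κ t) ≤ Real.exp (-(t ^ c)),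
      ∀ κ : ℝ, 0 < κ → κ < K → ∃ e : ℝ, e < Real.exp (-1) ∧ ∀ᶠ t : ℝ in atTop, t ∈ S →
        (volume : Measure Ω).real (Missed T μ κ t) ≤ e,
      ∀ κ : ℝ, 0 < κ → κ < K → ∃ e : ℝ, e < Real.exp (-1) ∧ ∀ᶠ t : ℝ in atTop, t ∈ S →
        ((1 - t ^ (-κ)) * t) • {x : ℝ × ℝ | μ x ≤ 1} ⊆ convexHull ℝ (pt '' {v : ℤ × ℤ |
          (volume : Measure Ω).real {ω | t < T ω v} ≤ e}),
      ∀ κ : ℝ, 0 < κ → κ < K → ∀ᶠ t : ℝ in atTop, t ∈ S →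
        ((1 - t ^ (-κ)) * t) • {x : ℝ × ℝ | μ x ≤ 1} ⊆ convexHull ℝ (pt '' {v : ℤ × ℤ |
          ∫ ω, T ω v ∂(volume : Measure Ω) ≤ t}),
      ∀ κ : ℝ, 0 < κ → κ < K → ∀ᶠ t : ℝ in atTop, t ∈ S → ∀ x ∈ E, ∃ v : ℤ × ℤ,
        ‖pt v - t • x‖ ≤ t ^ (1 - κ) ∧
          ∫ ω, T ω v ∂(volume : Measure Ω) ≤ t + t ^ (1 - κ)]) ∧
    -- (3) the directions of curvature are such a set of directions
    ({x | μ x ≤ 1} ⊆ closure (convexHull ℝ (Curv μ))) ∧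
    -- (4) Q1, in the wording of the problem, along sparse times in the directions of curvature
    (∀ S : Set ℝ, LogDense S →
    ((∀ ζ : ℝ, 0 < ζ → ζ < 2 / 3 → ∀ q : ℝ, 0 < q →
      Asymptotics.IsBigO atTop
        (fun t : ℝ => ((volume : Measure Ω) {ω | ¬ ({x : ℝ × ℝ | ∃ v : ℤ × ℤ, T ω v ≤ t ∧
            |x.1 - (v.1 : ℝ)| ≤ 1 / 2 ∧ |x.2 - (v.2 : ℝ)| ≤ 1 / 2} ⊆
            ((1 + t ^ (-(2 / 3 : ℝ) + ζ)) * t) • {x : ℝ × ℝ | μ x ≤ 1})}).toReal)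
        (fun t : ℝ => t ^ (-q)) ∧
      Asymptotics.IsBigO atTop
        (fun t : ℝ => ((volume : Measure Ω) {ω | ¬ (((1 - t ^ (-(2 / 3 : ℝ) + ζ)) * t) •
            {x : ℝ × ℝ | μ x ≤ 1} ⊆ {x : ℝ × ℝ | ∃ v : ℤ × ℤ, T ω v ≤ t ∧
            |x.1 - (v.1 : ℝ)| ≤ 1 / 2 ∧ |x.2 - (v.2 : ℝ)| ≤ 1 / 2})}).toReal)
        (fun t : ℝ => t ^ (-q))) ↔
    (∀ ζ : ℝ, 0 < ζ → ζ < 2 / 3 → ∀ᶠ t : ℝ in atTop, t ∈ S → ∀ x ∈ Curv μ, ∃ v : ℤ × ℤ,
      ‖pt v - t • x‖ ≤ t ^ (1 / 3 + ζ) ∧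
        ∫ ω, T ω v ∂(volume : Measure Ω) ≤ t + t ^ (1 / 3 + ζ)))) := by
  intro Ω _ _ X T μ h1 h2 h3 hT hhom hcont hlim
  obtain ⟨hX, hTD, p, hp, hG⟩ :=
    Pool.Agent.N662.FP.setup Ω X T μ h1 h2 h3 hT hhom hcont hlim
  subst hp
  subst hTD
  obtain ⟨c0, C0, hN⟩ := Pool.Agent.J4.H91.FPP.nrm_of p hG.norm
  have htf := fun K hK S hS E hE1 hE =>
    Pool.Agent.J4.H89.BK.conv_tfae hX hG hlim K hK S hS E hE1 hE
  have hcv := Pool.Agent.J4.H89.BK.curv_hull hN hcont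
  refine ⟨?_, htf, hcv, ?_⟩
  · intro κ κ' δ A hκ0 hκ1 hδ hA h0' hk h
    simp_rw [Pool.Agent.J4.H91.FPP.hh_eq hX] at h
    have hge := Pool.Agent.J4.H89.BK.hh_ge hX hN hlim
    have h5 : κ * (1 - δ) ≤ κ * 1 := mul_le_mul_of_nonneg_left (by linarith) hκ0.le
    obtain ⟨C, -, hC⟩ := Pool.Agent.J4.H89.BK.GG_of_hull hN hge hκ0 hκ1 hA
      (κ1 := (κ' + κ * (1 - δ)) / 2) (by linarith) (by linarith) hδ h
    exact (Pool.Agent.J4.H89.BK.one_mexp hX hN hG hlim (κ := (κ' + κ * (1 - δ)) / 2) (A := C)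
      (by linarith) (fun v => by linarith [hC v]) h0' (by linarith)).2
  · intro S hS
    have h13 := (htf (2 / 3) (by norm_num) S hS (Curv p) (fun x hx => hx.1.le) hcv).out 0 5
    have e1 : ∀ κ : ℝ, -(2 / 3 - κ) = -(2 / 3 : ℝ) + κ := fun κ => by ring
    have e2 : ∀ κ : ℝ, -(2 / 3 : ℝ) + (2 / 3 - κ) = -κ := fun κ => by ring
    have e3 : ∀ κ : ℝ, 1 - (2 / 3 - κ) = (1 / 3 : ℝ) + κ := fun κ => by ring
    have e4 : ∀ κ : ℝ, (1 / 3 : ℝ) + (2 / 3 - κ) = 1 - κ := fun κ => by ring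
    refine Iff.trans ⟨fun h κ k0 k1 q hq => ?_, fun h ζ z0 z1 q hq => ?_⟩
      (h13.trans ⟨fun h ζ z0 z1 => ?_, fun h κ k0 k1 => ?_⟩)
    · have h5 := h (2 / 3 - κ) (by linarith) (by linarith) q hq
      simp only [e2] at h5
      exact h5
    · have h5 := h (2 / 3 - ζ) (by linarith) (by linarith) q hq
      unfold Pool.Agent.N662.FP.Bad Pool.Agent.J4.H91.FPP.Out at h5
      simp only [e1] at h5
      exact h5
    · have h5 := h (2 / 3 - ζ) (by linarith) (by linarith)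
      simp only [e3] at h5
      exact h5
    · have h5 := h (2 / 3 - κ) (by linarith) (by linarith)
      simp only [e4] at h5
      exact h5

end Pool.Agent.Results.MP_de94ef_pr.ConvexHullCriterion
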