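import Pool.Agent.J4.H91.FPP.Outer

set_option autoImplicit false
open MeasureTheory ProbabilityTheory Filter
open scoped Pointwise

/-!
The outer half of Q1 of MP_de94ef_pr (planar first-passage percolation with Exp(1) weights)
follows from its inner half, at every exponent (helper91; uses the file `InnerHalf` of the starting
repository for the passage from the inner half to the one-point upper tails).
-/

namespace Pool.Agent.Results.MP_de94ef_pr.OuterFromInner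

/-- the fattened cluster at time `t`, for the passage times `T` from the origin -/
def Cluster (T : ℤ × ℤ → ℝ) (t : ℝ) : Set (ℝ × ℝ) :=
  {x : ℝ × ℝ | ∃ v : ℤ × ℤ, T v ≤ t ∧ |x.1 - (v.1 : ℝ)| ≤ 1 / 2 ∧ |x.2 - (v.2 : ℝ)| ≤ 1 / 2}

/-- the inner event: a part of `(1 - t ^ (-κ)) t` times the limit shape is missed by the fattened
cluster at time `t` -/
def Missed {Ω : Type} (T : Ω → ℤ × ℤ → ℝ) (μ : ℝ × ℝ → ℝ) (κ t : ℝ) : Set Ω :=
  {ω | ¬ (((1 - t ^ (-κ)) * t) • {x : ℝ × ℝ | μ x ≤ 1} ⊆ Cluster (T ω) t)}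

/-- the outer event: the fattened cluster at time `t` is not contained in `(1 + t ^ (-κ)) t` times
the limit shape -/
def Outside {Ω : Type} (T : Ω → ℤ × ℤ → ℝ) (μ : ℝ × ℝ → ℝ) (κ t : ℝ) : Set Ω :=
  {ω | ¬ (Cluster (T ω) t ⊆ ((1 + t ^ (-κ)) * t) • {x : ℝ × ℝ | μ x ≤ 1})}

/-- the lattice point `v` as a point of the plane -/
def pt (v : ℤ × ℤ) : ℝ × ℝ := ((v.1 : ℝ), (v.2 : ℝ))

theorem result :
  ∀ (Ω : Type) [MeasureSpace Ω] [IsProbabilityMeasure (volume : Measure Ω)]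
    (X : Sym2 (ℤ × ℤ) → Ω → ℝ) (T : Ω → ℤ × ℤ → ℝ) (μ : ℝ × ℝ → ℝ),
    (∀ e, Measurable (X e)) →
    iIndepFun X (volume : Measure Ω) →
    (∀ e, Measure.map (X e) (volume : Measure Ω) = expMeasure 1) →
    (∀ ω v, T ω v = sInf {s : ℝ | ∃ n : ℕ, ∃ p : ℕ → ℤ × ℤ, p 0 = 0 ∧ p n = v ∧
        (∀ i < n, |(p (i + 1)).1 - (p i).1| + |(p (i + 1)).2 - (p i).2| = 1) ∧
        s = ∑ i ∈ Finset.range n, X s(p i, p (i + 1)) ω}) →
    (∀ (x : ℝ × ℝ) (c : ℝ), 0 ≤ c → μ (c • x) = c * μ x) →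
    Continuous μ →
    (∀ z : ℤ × ℤ, ∀ᵐ ω ∂(volume : Measure Ω),
        Tendsto (fun n : ℕ => T ω ((n : ℤ) • z) / (n : ℝ)) atTop
          (nhds (μ ((z.1 : ℝ), (z.2 : ℝ))))) →
    -- (1) one exponent: a weak form of the inner half at `κ` gives the outer half at `κ' < κ`
    (∀ κ κ' e : ℝ, 0 < κ' → κ' < κ → κ < 1 → e < Real.exp (-1) →
      (∀ᶠ t : ℝ in atTop, (volume : Measure Ω).real (Missed T μ κ t) ≤ e) →
      ∃ c : ℝ, 0 < c ∧ ∀ᶠ t : ℝ in atTop,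
        (volume : Measure Ω).real (Outside T μ κ' t) ≤ Real.exp (-(t ^ c))) ∧
    -- (2) one point: a weak bound for the upper tails gives a strong bound for the lower tails
    (∀ κ κ' e A : ℝ, 0 ≤ κ' → κ' < κ → κ < 1 → e < Real.exp (-1) → 0 < A →
      (∀ v : ℤ × ℤ, (volume : Measure Ω).real
        {ω | μ (pt v) + A * (1 + μ (pt v)) ^ (1 - κ) ≤ T ω v} ≤ e) →
      ∃ c A' : ℝ, 0 < c ∧ 0 < A' ∧ ∀ v : ℤ × ℤ, (volume : Measure Ω).real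
        {ω | T ω v ≤ μ (pt v) - A' * (1 + μ (pt v)) ^ (1 - κ')} ≤
        A' * Real.exp (-(μ (pt v) ^ c))) ∧
    -- (3) all exponents below `K`; for `K = 2 / 3` the second item is Q1
    (∀ K : ℝ, K < 1 → List.TFAE [
      ∀ κ : ℝ, 0 < κ → κ < K → ∃ e : ℝ, e < Real.exp (-1) ∧
        ∀ᶠ t : ℝ in atTop, (volume : Measure Ω).real (Missed T μ κ t) ≤ e,
      ∀ κ : ℝ, 0 < κ → κ < K → ∀ q : ℝ, 0 < q →
        Asymptotics.IsBigO atTop (fun t : ℝ => (volume : Measure Ω).real (Outside T μ κ t))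
          (fun t : ℝ => t ^ (-q)) ∧
        Asymptotics.IsBigO atTop (fun t : ℝ => (volume : Measure Ω).real (Missed T μ κ t))
          (fun t : ℝ => t ^ (-q)),
      ∀ κ : ℝ, 0 < κ → κ < K → ∃ c : ℝ, 0 < c ∧ ∀ᶠ t : ℝ in atTop,
        (volume : Measure Ω).real (Outside T μ κ t) ≤ Real.exp (-(t ^ c)) ∧
        (volume : Measure Ω).real (Missed T μ κ t) ≤ Real.exp (-(t ^ c)),
      ∀ κ : ℝ, 0 < κ → κ < K → ∃ e : ℝ, e < Real.exp (-1) ∧ ∃ A : ℝ, 0 < A ∧ ∀ v : ℤ × ℤ,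
        (volume : Measure Ω).real
          {ω | μ (pt v) + A * (1 + μ (pt v)) ^ (1 - κ) ≤ T ω v} ≤ e,
      ∀ κ : ℝ, 0 < κ → κ < K → ∃ c A : ℝ, 0 < c ∧ 0 < A ∧ ∀ v : ℤ × ℤ,
        (volume : Measure Ω).real
          {ω | A * (1 + μ (pt v)) ^ (1 - κ) ≤ |T ω v - μ (pt v)|} ≤
          A * Real.exp (-(μ (pt v) ^ c)),
      ∀ κ : ℝ, 0 < κ → κ < K → ∃ A : ℝ, ∀ v : ℤ × ℤ,
        ∫ ω, |T ω v - μ (pt v)| ∂(volume : Measure Ω) ≤ A * (1 + μ (pt v)) ^ (1 - κ)]) ∧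
    -- (4) Q1, in the wording of the problem, is equivalent to a weak form of its second estimate
    ((∀ ζ : ℝ, 0 < ζ → ζ < 2 / 3 → ∀ q : ℝ, 0 < q →
      Asymptotics.IsBigO atTop
        (fun t : ℝ => ((volume : Measure Ω) {ω | ¬ ({x : ℝ × ℝ | ∃ v : ℤ × ℤ, T ω v ≤ t ∧
            |x.1 - (v.1 : ℝ)| ≤ 1 / 2 ∧ |x.2 - (v.2 : ℝ)| ≤ 1 / 2} ⊆
            ((1 + t ^ (-(2 / 3 : ℝ) + ζ)) * t) • {x : ℝ × ℝ | μ x ≤ 1})}).toReal)
        (fun t : ℝ => t ^ (-q)) ∧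
      Asymptotics.IsBigO atTop
        (fun t : ℝ => ((volume : Measure Ω) {ω | ¬ (((1 - t ^ (-(2 / 3 : ℝ) + ζ)) * t) •
            {x : ℝ × ℝ | μ x ≤ 1} ⊆ {x : ℝ × ℝ | ∃ v : ℤ × ℤ, T ω v ≤ t ∧
            |x.1 - (v.1 : ℝ)| ≤ 1 / 2 ∧ |x.2 - (v.2 : ℝ)| ≤ 1 / 2})}).toReal)
        (fun t : ℝ => t ^ (-q))) ↔
    (∀ ζ : ℝ, 0 < ζ → ζ < 2 / 3 → ∃ e : ℝ, e < Real.exp (-1) ∧ ∀ᶠ t : ℝ in atTop,
      ((volume : Measure Ω) {ω | ¬ (((1 - t ^ (-(2 / 3 : ℝ) + ζ)) * t) •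
            {x : ℝ × ℝ | μ x ≤ 1} ⊆ {x : ℝ × ℝ | ∃ v : ℤ × ℤ, T ω v ≤ t ∧
            |x.1 - (v.1 : ℝ)| ≤ 1 / 2 ∧ |x.2 - (v.2 : ℝ)| ≤ 1 / 2})}).toReal ≤ e)) := by
  intro Ω _ _ X T μ h1 h2 h3 hT hhom hcont hlim
  obtain ⟨hX, hTD, p, hp, hG⟩ :=
    Pool.Agent.N662.FP.setup Ω X T μ h1 h2 h3 hT hhom hcont hlim
  subst hp
  subst hTD
  obtain ⟨c0, C0, hN⟩ := Pool.Agent.J4.H91.FPP.nrm_of p hG.norm
  have htf := Pool.Agent.J4.H91.FPP.tfae2 hX hG (2 / 3) (by norm_num)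
  have h21 := htf.out 1 0
  refine ⟨?_, ?_, fun K hK => Pool.Agent.J4.H91.FPP.tfae2 hX hG K hK, ?_⟩
  · intro κ κ' e h0' h1' hκ1 he h
    obtain ⟨A, hA, hh⟩ := Pool.Agent.N662.FP.cDD2 Ω _ p hG.norm hG.int κ
      (max e (Real.exp (-2))) (h0'.trans h1') hκ1 (lt_max_of_lt_right (Real.exp_pos _))
      (by filter_upwards [h] with t ht; exact ht.trans (le_max_left _ _))
    obtain ⟨A', hy⟩ := Pool.Agent.J4.H91.FPP.mk_hyp hX hG
      (max_lt he (Real.exp_lt_exp.2 (by norm_num))) hA hh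
    exact Pool.Agent.J4.H91.FPP.out_of_hyp hX hN hy hκ1 h0' h1'
  · intro κ κ' e A h0' h1' hκ1 he hA hh
    obtain ⟨A', hy⟩ := Pool.Agent.J4.H91.FPP.mk_hyp hX hG he hA hh
    exact Pool.Agent.J4.H91.FPP.low_of_hyp hX hN hy hκ1 h0' h1'
  · have e1 : ∀ κ : ℝ, -(2 / 3 - κ) = -(2 / 3 : ℝ) + κ := fun κ => by ring
    have e2 : ∀ κ : ℝ, -(2 / 3 : ℝ) + (2 / 3 - κ) = -κ := fun κ => by ring
    constructor
    · intro h ζ h0 h1
      have h5 := h21.1 (fun κ k0 k1 q hq => by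
        have := h (2 / 3 - κ) (by linarith) (by linarith) q hq
        simp only [e2] at this
        exact this) (2 / 3 - ζ) (by linarith) (by linarith)
      unfold Pool.Agent.N662.FP.Bad at h5
      simp only [e1] at h5
      exact h5
    · intro h ζ h0 h1
      have h5 := h21.2 (fun κ k0 k1 => by
        have := h (2 / 3 - κ) (by linarith) (by linarith)
        simp only [e2] at this
        exact this) (2 / 3 - ζ) (by linarith) (by linarith)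
      unfold Pool.Agent.N662.FP.Bad Pool.Agent.J4.H91.FPP.Out at h5
      simp only [e1] at h5
      exact h5

end Pool.Agent.Results.MP_de94ef_pr.OuterFromInner
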