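import Pool.Agent.J4.H91.FPP.Fin3

set_option autoImplicit false
open MeasureTheory ProbabilityTheory Filter
open scoped Pointwise

/-!
Q1 of MP_de94ef_pr (planar first-passage percolation with Exp(1) weights) holds if and only if the
variance of the passage time between `0` and `v` is at most `|v| ^ (2 / 3 + ε)`, up to a constant,
for every `ε > 0`; the nonrandom fluctuations are controlled by the random ones at every exponent
(helper91).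
-/

namespace Pool.Agent.Results.MP_de94ef_pr.VarianceCriterion

/-- the fattened cluster at time `t`, for the passage times `T` from the origin -/
def Cluster (T : ℤ × ℤ → ℝ) (t : ℝ) : Set (ℝ × ℝ) :=
  {x : ℝ × ℝ | ∃ v : ℤ × ℤ, T v ≤ t ∧ |x.1 - (v.1 : ℝ)| ≤ 1 / 2 ∧ |x.2 - (v.2 : ℝ)| ≤ 1 / 2}

/-- the inner event: a part of `(1 - t ^ (-κ)) t` times the limit shape is missed by the fattened
cluster at time `t` -/
def Missed {Ω : Type} (T : Ω → ℤ × ℤ → ℝ) (μ : ℝ × ℝ → ℝ) (κ t : ℝ) : Set Ω :=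
  {ω | ¬ (((1 - t ^ (-κ)) * t) • {x : ℝ × ℝ | μ x ≤ 1} ⊆ Cluster (T ω) t)}

/-- the outer event: the fattened cluster at time `t` is not contained in `(1 + t ^ (-κ)) t` times
the limit shape -/
def Outside {Ω : Type} (T : Ω → ℤ × ℤ → ℝ) (μ : ℝ × ℝ → ℝ) (κ t : ℝ) : Set Ω :=
  {ω | ¬ (Cluster (T ω) t ⊆ ((1 + t ^ (-κ)) * t) • {x : ℝ × ℝ | μ x ≤ 1})}

/-- the lattice point `v` as a point of the plane -/
def pt (v : ℤ × ℤ) : ℝ × ℝ := ((v.1 : ℝ), (v.2 : ℝ))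

theorem result :
  ∀ (Ω : Type) [MeasureSpace Ω] [IsProbabilityMeasure (volume : Measure Ω)]
    (X : Sym2 (ℤ × ℤ) → Ω → ℝ) (T : Ω → ℤ × ℤ → ℝ) (μ : ℝ × ℝ → ℝ),
    (∀ e, Measurable (X e)) →
    iIndepFun X (volume : Measure Ω) →
    (∀ e, Measure.map (X e) (volume : Measure Ω) = expMeasure 1) →
    (∀ ω v, T ω v = sInf {s : ℝ | ∃ n : ℕ, ∃ p : ℕ → ℤ × ℤ, p 0 = 0 ∧ p n = v ∧
        (∀ i < n, |(p (i + 1)).1 - (p i).1| + |(p (i + 1)).2 - (p i).2| = 1) ∧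
        s = ∑ i ∈ Finset.range n, X s(p i, p (i + 1)) ω}) →
    (∀ (x : ℝ × ℝ) (c : ℝ), 0 ≤ c → μ (c • x) = c * μ x) →
    Continuous μ →
    (∀ z : ℤ × ℤ, ∀ᵐ ω ∂(volume : Measure Ω),
        Tendsto (fun n : ℕ => T ω ((n : ℤ) • z) / (n : ℝ)) atTop
          (nhds (μ ((z.1 : ℝ), (z.2 : ℝ))))) →
    -- (0) the passage times are square integrable
    (∀ v : ℤ × ℤ, MemLp (fun ω => T ω v) 2 (volume : Measure Ω)) ∧
    -- (1) one exponent: the fluctuations around the mean, in the first moment, control the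
    -- nonrandom fluctuations and both halves of the shape theorem
    (∀ κ κ' A : ℝ, 0 < κ' → κ' < κ → κ < 1 →
      (∀ v : ℤ × ℤ, ∫ ω, |T ω v - ∫ ω', T ω' v ∂(volume : Measure Ω)| ∂(volume : Measure Ω) ≤
        A * (1 + μ (pt v)) ^ (1 - κ)) →
      (∃ A' : ℝ, ∀ v : ℤ × ℤ, μ (pt v) ≤ ∫ ω, T ω v ∂(volume : Measure Ω) ∧
        ∫ ω, T ω v ∂(volume : Measure Ω) ≤ μ (pt v) + A' * (1 + μ (pt v)) ^ (1 - κ')) ∧
      ∃ c : ℝ, 0 < c ∧ ∀ᶠ t : ℝ in atTop,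
        (volume : Measure Ω).real (Outside T μ κ' t) ≤ Real.exp (-(t ^ c)) ∧
        (volume : Measure Ω).real (Missed T μ κ' t) ≤ Real.exp (-(t ^ c))) ∧
    -- (2) all exponents below `K`; for `K = 2 / 3` the first item is Q1
    (∀ K : ℝ, K < 1 → List.TFAE [
      ∀ κ : ℝ, 0 < κ → κ < K → ∀ q : ℝ, 0 < q →
        Asymptotics.IsBigO atTop (fun t : ℝ => (volume : Measure Ω).real (Outside T μ κ t))
          (fun t : ℝ => t ^ (-q)) ∧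
        Asymptotics.IsBigO atTop (fun t : ℝ => (volume : Measure Ω).real (Missed T μ κ t))
          (fun t : ℝ => t ^ (-q)),
      ∀ κ : ℝ, 0 < κ → κ < K → ∃ c : ℝ, 0 < c ∧ ∀ᶠ t : ℝ in atTop,
        (volume : Measure Ω).real (Outside T μ κ t) ≤ Real.exp (-(t ^ c)) ∧
        (volume : Measure Ω).real (Missed T μ κ t) ≤ Real.exp (-(t ^ c)),
      ∀ κ : ℝ, 0 < κ → κ < K → ∃ A : ℝ, ∀ v : ℤ × ℤ,
        variance (fun ω => T ω v) (volume : Measure Ω) ≤ A * (1 + μ (pt v)) ^ (2 * (1 - κ)),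
      ∀ κ : ℝ, 0 < κ → κ < K → ∃ A : ℝ, ∀ v : ℤ × ℤ,
        ∫ ω, |T ω v - ∫ ω', T ω' v ∂(volume : Measure Ω)| ∂(volume : Measure Ω) ≤
          A * (1 + μ (pt v)) ^ (1 - κ),
      ∀ κ : ℝ, 0 < κ → κ < K → ∃ e : ℝ, e < Real.exp (-1) ∧ ∃ A : ℝ, 0 < A ∧ ∀ v : ℤ × ℤ,
        (volume : Measure Ω).real
          {ω | (∫ ω', T ω' v ∂(volume : Measure Ω)) + A * (1 + μ (pt v)) ^ (1 - κ) ≤ T ω v} ≤ e]) ∧
    -- (3) Q1, in the wording of the problem, is equivalent to the variance exponent `2 / 3`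
    ((∀ ζ : ℝ, 0 < ζ → ζ < 2 / 3 → ∀ q : ℝ, 0 < q →
      Asymptotics.IsBigO atTop
        (fun t : ℝ => ((volume : Measure Ω) {ω | ¬ ({x : ℝ × ℝ | ∃ v : ℤ × ℤ, T ω v ≤ t ∧
            |x.1 - (v.1 : ℝ)| ≤ 1 / 2 ∧ |x.2 - (v.2 : ℝ)| ≤ 1 / 2} ⊆
            ((1 + t ^ (-(2 / 3 : ℝ) + ζ)) * t) • {x : ℝ × ℝ | μ x ≤ 1})}).toReal)
        (fun t : ℝ => t ^ (-q)) ∧
      Asymptotics.IsBigO atTop
        (fun t : ℝ => ((volume : Measure Ω) {ω | ¬ (((1 - t ^ (-(2 / 3 : ℝ) + ζ)) * t) •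
            {x : ℝ × ℝ | μ x ≤ 1} ⊆ {x : ℝ × ℝ | ∃ v : ℤ × ℤ, T ω v ≤ t ∧
            |x.1 - (v.1 : ℝ)| ≤ 1 / 2 ∧ |x.2 - (v.2 : ℝ)| ≤ 1 / 2})}).toReal)
        (fun t : ℝ => t ^ (-q))) ↔
    (∀ ε : ℝ, 0 < ε → ∃ A : ℝ, ∀ v : ℤ × ℤ,
      variance (fun ω => T ω v) (volume : Measure Ω) ≤ A * (1 + ‖pt v‖) ^ (2 / 3 + ε))) := by
  intro Ω _ _ X T μ h1 h2 h3 hT hhom hcont hlim
  obtain ⟨hX, hTD, p, hp, hG⟩ :=
    Pool.Agent.N662.FP.setup Ω X T μ h1 h2 h3 hT hhom hcont hlim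
  subst hp
  subst hTD
  obtain ⟨c0, C0, hN⟩ := Pool.Agent.J4.H91.FPP.nrm_of p hG.norm
  have htf := fun K hK => Pool.Agent.J4.H91.FPP.tfae3 hX hG hlim K hK
  refine ⟨fun v => Pool.Agent.J4.H91.FPP.mem2' hX v, ?_, htf, ?_⟩
  · intro κ κ' A h0' h1' hκ1 h
    simp_rw [Pool.Agent.J4.H91.FPP.hh_eq hX] at h ⊢
    refine ⟨?_, Pool.Agent.J4.H91.FPP.one_exp hX hN hG hlim hκ1 h h0' h1'⟩
    obtain ⟨A', -, hA'⟩ := Pool.Agent.J4.H91.FPP.l1_of_mean hX hN hlim (h0'.trans h1') hκ1 h h1'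
    exact ⟨A', fun v => ⟨(hA' v).1, (hA' v).2.1⟩⟩
  · have h13 := (htf (2 / 3) (by norm_num)).out 0 2
    have hcr := Pool.Agent.J4.H91.FPP.crit hN
      (f := fun v => variance (fun ω => Pool.Agent.N662.FP.D (Pool.Agent.N662.FP.env X ω) 0 v)
        (volume : Measure Ω))
    have e1 : ∀ κ : ℝ, -(2 / 3 - κ) = -(2 / 3 : ℝ) + κ := fun κ => by ring
    have e2 : ∀ κ : ℝ, -(2 / 3 : ℝ) + (2 / 3 - κ) = -κ := fun κ => by ring
    refine Iff.trans ⟨fun h κ k0 k1 q hq => ?_, fun h ζ z0 z1 q hq => ?_⟩ (h13.trans hcr)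
    · have h5 := h (2 / 3 - κ) (by linarith) (by linarith) q hq
      simp only [e2] at h5
      exact h5
    · have h5 := h (2 / 3 - ζ) (by linarith) (by linarith) q hq
      unfold Pool.Agent.N662.FP.Bad Pool.Agent.J4.H91.FPP.Out at h5
      simp only [e1] at h5
      exact h5

end Pool.Agent.Results.MP_de94ef_pr.VarianceCriterion
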